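import Pool.Agent.H19.SYA.TA

/-!
# Board sya_modules, row AGF: finitely generated rings have finite residue fields
-/

set_option autoImplicit false

namespace Pool.Agent.H60.SYA

open Pool.Agent.H19.SYA

theorem agf_jac : IsJacobsonRing ℤ := by
  rw [isJacobsonRing_iff_prime_eq]
  intro P hP
  by_cases h : P = ⊥
  · subst h
    rw [eq_bot_iff]
    intro x hx
    rw [Ideal.mem_jacobson_bot] at hx
    have h1 := hx (3 * x)
    rw [Int.isUnit_iff] at h1
    have h2 : x * x ≥ 0 := mul_self_nonneg x
    rw [Ideal.mem_bot]
    rcases h1 with h1 | h1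
    · have h3 : x * x = 0 := by linarith
      exact mul_self_eq_zero.mp h3
    · nlinarith
  · have hmax : P.IsMaximal := Ring.DimensionLEOne.maximalOfPrime h hP
    exact Ideal.jacobson_eq_self_of_isMaximal

theorem agf_fin (K : Type) [Field K] [Algebra.FiniteType ℤ K] : Finite K := by
  have := agf_jac
  have hfin : Module.Finite ℤ K := finite_of_finite_type_of_isJacobsonRing ℤ K
  obtain ⟨p, hp⟩ := CharP.exists K
  rcases Nat.eq_zero_or_pos p with h0 | hpos
  · exfalso
    subst h0
    have : CharZero K := CharP.charP_to_charZero K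
    have hint : Algebra.IsIntegral ℤ K := inferInstance
    have hinj : Function.Injective (algebraMap ℤ K) := by
      have := (Int.cast_injective : Function.Injective ((↑) : ℤ → K))
      simpa using this
    have hf := isField_of_isIntegral_of_isField (R := ℤ) (S := K) hinj (Field.toIsField K)
    exact Int.not_isField hf
  · have : NeZero p := ⟨hpos.ne'⟩
    have hfg : AddGroup.FG K := by
      rw [← Module.Finite.iff_addGroup_fg]; exact hfin
    have htors : Module.IsTorsion ℤ K := by
      intro x
      refine ⟨⟨(p : ℤ), mem_nonZeroDivisors_of_ne_zero (by exact_mod_cast hpos.ne')⟩, ?_⟩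
      show (p : ℤ) • x = 0
      rw [zsmul_eq_mul]
      have : ((p : ℤ) : K) = 0 := by
        rw [Int.cast_natCast]; exact CharP.cast_eq_zero K p
      rw [this, zero_mul]
    exact Module.finite_of_fg_torsion K htors

theorem agf_quot (A : Type) [CommRing A] (h : Algebra.FiniteType ℤ A) (K : Type) [Field K]
    (f : A →+* K) (hf : Function.Surjective f) : Finite K := by
  have hft : Algebra.FiniteType ℤ K := h.of_surjective f.toIntAlgHom hf
  exact agf_fin K

theorem pf_AGF : T_AGF := by
  intro R _ _ S
  have hFT : Algebra.FiniteType ℤ (Subring.closure (S : Set R)) := by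
    have h0 : (Algebra.adjoin ℤ (S : Set R)).FG := ⟨S, rfl⟩
    have h1 : Algebra.FiniteType ℤ (Algebra.adjoin ℤ (S : Set R)) :=
      (Subalgebra.fg_iff_finiteType _).1 h0
    have h2 : (Algebra.adjoin ℤ (S : Set R)).toSubring = Subring.closure (S : Set R) := by
      rw [Algebra.adjoin_int]
      rfl
    have h3 : ∀ x ∈ Algebra.adjoin ℤ (S : Set R), x ∈ Subring.closure (S : Set R) := by
      intro x hx
      rw [← h2]
      exact hx
    have h4 : ∀ x ∈ Subring.closure (S : Set R), x ∈ Algebra.adjoin ℤ (S : Set R) := by
      intro x hx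
      rw [← h2] at hx
      exact hx
    let e : Algebra.adjoin ℤ (S : Set R) ≃+* Subring.closure (S : Set R) :=
      { toFun := fun x => ⟨x.1, h3 x.1 x.2⟩
        invFun := fun x => ⟨x.1, h4 x.1 x.2⟩
        left_inv := fun x => rfl
        right_inv := fun x => rfl
        map_mul' := fun x y => rfl
        map_add' := fun x y => rfl }
    exact Algebra.FiniteType.equiv h1 e.toIntAlgEquiv
  have hnt : Nontrivial (Subring.closure (S : Set R)) := inferInstance
  obtain ⟨m, hm⟩ := Ideal.exists_maximal (Subring.closure (S : Set R))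
  let _ : Field (Subring.closure (S : Set R) ⧸ m) := Ideal.Quotient.field m
  have hfin : Finite (Subring.closure (S : Set R) ⧸ m) :=
    agf_quot _ hFT _ (Ideal.Quotient.mk m) Ideal.Quotient.mk_surjective
  exact ⟨_, inferInstance, hfin, ⟨Ideal.Quotient.mk m⟩⟩

end Pool.Agent.H60.SYA
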