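import Pool.Agent.H19.SYA.TA

/-!
# Board sya_modules, row CHZ: a slice modulo `g`
-/

set_option autoImplicit false

namespace Pool.Agent.H60.SYA

open MvPolynomial Pool.Agent.H2.ST Pool.Agent.H15.TG Pool.Agent.H19.SYA

section aux

variable {k : Type} [Field k]

theorem it_dvd {f g : Pol k 2} (hfg : br f g = 0) {y : Pol k 2} (hy : g ∣ y) : g ∣ br f y := by
  obtain ⟨c, rfl⟩ := hy
  rw [br_mul, hfg, mul_zero, add_zero]
  exact dvd_mul_right _ _

theorem it_dvd_iter {f g : Pol k 2} (hfg : br f g = 0) {y : Pol k 2} (hy : g ∣ y) (n : ℕ) :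
    g ∣ (br f)^[n] y := by
  induction n with
  | zero => exact hy
  | succ n ih =>
    rw [Function.iterate_succ_apply']
    exact it_dvd hfg ih

theorem it_comm {f g : Pol k 2} (hfg : br f g = 0) (y : Pol k 2) (n : ℕ) :
    br f ((br g)^[n] y) = (br g)^[n] (br f y) := by
  induction n with
  | zero => rfl
  | succ n ih =>
    rw [Function.iterate_succ_apply', Function.iterate_succ_apply', jac, hfg, zero_br, zero_add, ih]

theorem it_mul {f : Pol k 2} (u : Pol k 2) (hu : br f u = 0) (x : Pol k 2) (n : ℕ) :
    (br f)^[n] (u * x) = u * (br f)^[n] x := by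
  induction n with
  | zero => rfl
  | succ n ih =>
    rw [Function.iterate_succ_apply', Function.iterate_succ_apply', ih, br_mul, hu, mul_zero,
      add_zero]

theorem it_sub (f x y : Pol k 2) (n : ℕ) :
    (br f)^[n] (x - y) = (br f)^[n] x - (br f)^[n] y := by
  induction n with
  | zero => rfl
  | succ n ih =>
    rw [Function.iterate_succ_apply', Function.iterate_succ_apply', Function.iterate_succ_apply',
      ih, br_sub]

theorem it_H {f H e : Pol k 2} (he : br f H = e) (hfe : br f e = 0) (u : Pol k 2) (n : ℕ) :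
    (br f)^[n + 1] (u * H) = (br f)^[n + 1] u * H + ((n + 1 : ℕ) : Pol k 2) * e *
      (br f)^[n] u := by
  induction n with
  | zero =>
    rw [Function.iterate_one, Function.iterate_zero, id, br_mul, he]
    push_cast
    ring
  | succ n ih =>
    have hc : br f ((n + 1 : ℕ) : Pol k 2) = 0 := by
      rw [← map_natCast (C : k →+* Pol k 2) (n + 1)]
      exact br_C f _
    have h1 : (br f)^[n + 1 + 1] (u * H) = br f ((br f)^[n + 1] (u * H)) :=
      Function.iterate_succ_apply' _ _ _
    have h2 : (br f)^[n + 1 + 1] u = br f ((br f)^[n + 1] u) :=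
      Function.iterate_succ_apply' _ _ _
    have h3 : (br f)^[n + 1] u = br f ((br f)^[n] u) := Function.iterate_succ_apply' _ _ _
    rw [h1, ih, br_add, br_mul, br_mul, br_mul, hc, hfe, he, ← h2, ← h3]
    push_cast
    ring

end aux

theorem pf_CHZ : T_CHZ := by
  classical
  intro k _ _ _ W H y w g f α β hy hG
  have hfg : br f g = 0 := by rw [br_anti, hG.gf, neg_zero]
  have hgg : br g g = 0 := br_self g
  set e : Pol k 2 := (β : k) • f with hedef
  have he : br f H = e := hy.HE β f hG.hf
  have hfe : br f e = 0 := by rw [hedef, br_smul, br_self, smul_zero]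
  have hge : br g e = 0 := by rw [hedef, br_smul, hG.gf, smul_zero]
  have hgH : br g H = (α : k) • g := hy.HE α g hG.hg
  have hβ : (β : k) ≠ 0 := by exact_mod_cast hG.pb.ne'
  have hew : e ∈ W β := (W β).smul_mem _ hG.hf
  -- existence
  have hex : ∃ n : ℕ, ∃ (a : ℤ) (x : Pol k 2), x ∈ W a ∧ ¬ g ∣ br g x ∧ g ∣ (br f)^[n] x := by
    have h1 : ∃ s, ¬ g ∣ br g (X s) := by
      by_contra hcon
      push Not at hcon
      obtain ⟨c, hc⟩ := const_of_dvd g hcon
      by_cases hc0 : c = 0
      · apply hG.pg.ne_zero
        rw [hc, hc0, C_0]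
      · apply hG.pg.not_isUnit
        rw [hc]
        exact (IsUnit.mk0 c hc0).map C
    obtain ⟨s, hs⟩ := h1
    have h2 : ∃ a, ¬ g ∣ br g (cmp hy.toGr (X s) a) := by
      by_contra hcon
      push Not at hcon
      apply hs
      rw [← cmp_sum hy.toGr (X s)]
      unfold Finsupp.sum
      rw [br_sum]
      exact Finset.dvd_sum fun a _ => hcon a
    obtain ⟨a, ha⟩ := h2
    obtain ⟨N, hN⟩ := hG.lf (cmp hy.toGr (X s) a)
    exact ⟨N, a, _, cmp_mem hy.toGr (X s) a, ha, by rw [hN]; exact dvd_zero _⟩
  have hfind : ∃ (a : ℤ) (x : Pol k 2), x ∈ W a ∧ ¬ g ∣ br g x ∧ g ∣ br f x := by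
    obtain ⟨a, x, hxa, hx1, hx2⟩ := Nat.find_spec hex
    have hmin := fun m hm => Nat.find_min (H := hex) (m := m) hm
    rcases h0 : Nat.find hex with _ | _ | m
    · exfalso
      rw [h0, Function.iterate_zero, id] at hx2
      exact hx1 (it_dvd hgg hx2)
    · rw [h0, zero_add, Function.iterate_one] at hx2
      exact ⟨a, x, hxa, hx1, hx2⟩
    · exfalso
      rw [h0] at hx2 hmin
      have hux : br f x ∈ W (β + a) := hy.pbr β a f x hG.hf hxa
      have h3 : g ∣ br g (br f x) := by
        by_contra hcon
        apply hmin (m + 1) (by omega)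
        refine ⟨β + a, br f x, hux, hcon, ?_⟩
        rw [← Function.iterate_succ_apply]
        exact hx2
      apply hmin (m + 1) (by omega)
      refine ⟨β + a, ((m + 1 : ℕ) : Pol k 2) * e * x - br f x * H, ?_, ?_, ?_⟩
      · refine (W (β + a)).sub_mem ?_ ?_
        · have h4 : ((m + 1 : ℕ) : Pol k 2) * e * x = ((m + 1 : ℕ) : k) • (e * x) := by
            rw [smul_eq_C_mul, map_natCast, mul_assoc]
          rw [h4]
          exact (W (β + a)).smul_mem _ (hy.mul _ _ _ _ hew hxa)
        · have := hy.mul _ _ _ _ hux hy.H0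
          rwa [add_zero] at this
      · intro hcon
        have hc : br g ((m + 1 : ℕ) : Pol k 2) = 0 := by
          rw [← map_natCast (C : k →+* Pol k 2) (m + 1)]
          exact br_C g _
        rw [br_sub, br_mul, br_mul, br_mul, hc, hge, hgH] at hcon
        have h5 : g ∣ ((m + 1 : ℕ) : Pol k 2) * e * br g x := by
          have h6 : ((m + 1 : ℕ) : Pol k 2) * e * br g x =
              (((m + 1 : ℕ) : Pol k 2) * e * br g x + x * (((m + 1 : ℕ) : Pol k 2) * 0 + e * 0) -
                (br f x * (α : k) • g + H * br g (br f x))) +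
              (br f x * (α : k) • g + H * br g (br f x)) := by ring
          rw [h6]
          refine dvd_add hcon (dvd_add ?_ ?_)
          · rw [smul_eq_C_mul, mul_left_comm]
            rw [← mul_assoc]
            exact dvd_mul_left _ _
          · exact h3.mul_left _
        rcases hG.pg.dvd_or_dvd h5 with h7 | h7
        · have h8 : ((m + 1 : ℕ) : Pol k 2) * e = C (((m + 1 : ℕ) : k) * β) * f := by
            rw [hedef, smul_eq_C_mul, C_mul, map_natCast]
            ring
          rw [h8] at h7
          rcases hG.pg.dvd_or_dvd h7 with h9 | h9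
          · apply hG.pg.not_isUnit
            have hu : IsUnit (C (((m + 1 : ℕ) : k) * (β : k)) : Pol k 2) :=
              (IsUnit.mk0 _ (mul_ne_zero (Nat.cast_ne_zero.2 (Nat.succ_ne_zero m)) hβ)).map C
            exact isUnit_of_dvd_unit h9 hu
          · exact hG.nd h9
        · exact hx1 h7
      · have hc : br f (((m + 1 : ℕ) : Pol k 2) * e) = 0 := by
          rw [br_mul, hfe, ← map_natCast (C : k →+* Pol k 2) (m + 1), br_C, mul_zero, mul_zero,
            add_zero]
        rw [it_sub, it_mul _ hc, it_H he hfe]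
        have h4 : (br f)^[m] (br f x) = (br f)^[m + 1] x := (Function.iterate_succ_apply _ _ _).symm
        have h5 : (br f)^[m + 1] (br f x) = (br f)^[m + 1 + 1] x :=
          (Function.iterate_succ_apply _ _ _).symm
        rw [h4, h5]
        have h6 : ((m + 1 : ℕ) : Pol k 2) * e * (br f)^[m + 1] x - ((br f)^[m + 1 + 1] x * H +
            ((m + 1 : ℕ) : Pol k 2) * e * (br f)^[m + 1] x) = -((br f)^[m + 1 + 1] x * H) := by
          ring
        rw [h6]
        exact (hx2.mul_right _).neg_right
  obtain ⟨a, x, hxa, hx1, hx2⟩ := hfind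
  have hexj : ∃ j : ℕ, g ∣ (br g)^[j + 1] x := by
    obtain ⟨N, hN⟩ := hG.lg x
    refine ⟨N, ?_⟩
    rw [Function.iterate_succ_apply', hN, br_zero]
    exact dvd_zero _
  have hj1 := Nat.find_spec hexj
  have hmin := fun m hm => Nat.find_min (H := hexj) (m := m) hm
  rcases h0 : Nat.find hexj with _ | j
  · exfalso
    rw [h0, zero_add, Function.iterate_one] at hj1
    exact hx1 hj1
  · rw [h0] at hj1 hmin
    have hw : ∀ i : ℕ, (br g)^[i] x ∈ W (i * α + a) := by
      intro i
      induction i with
      | zero =>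
        rw [Function.iterate_zero, id]
        push_cast
        rw [zero_mul, zero_add]
        exact hxa
      | succ i ih =>
        rw [Function.iterate_succ_apply']
        have := hy.pbr _ _ _ _ hG.hg ih
        have h3 : α + ((i : ℤ) * α + a) = ((i + 1 : ℕ) : ℤ) * α + a := by
          push_cast
          ring
        rwa [h3] at this
    refine ⟨(br g)^[j] x, j * α + a, hw j, ?_, ?_, ?_⟩
    · rw [it_comm hfg]
      exact it_dvd_iter hgg hx2 j
    · have h3 := hmin j (by omega)
      rw [Function.iterate_succ_apply'] at h3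
      exact h3
    · rw [Function.iterate_succ_apply', Function.iterate_succ_apply'] at hj1
      exact hj1

end Pool.Agent.H60.SYA
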