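import Pool.Agent.H19.SYA.TB

/-!
# Board sya_modules, row SEP: the conjugate expansions are different
-/

set_option autoImplicit false

namespace Pool.Agent.H60.SYA

open MvPolynomial Pool.Agent.H2.ST Pool.Agent.H15.TG Pool.Agent.H19.SYA

section aux

variable {k : Type} [Field k]

/-- `X1 ↦ ε X1` -/
noncomputable def sg (ε : k) : MvPolynomial (Fin 4) k →ₐ[k] MvPolynomial (Fin 4) k :=
  aeval ![X 0, C ε * X 1, X 2, X 3]

theorem sg_inj {ε : k} (hε : ε ≠ 0) : Function.Injective (sg ε) := by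
  have h : (sg ε⁻¹).comp (sg ε) = AlgHom.id k _ := by
    apply MvPolynomial.algHom_ext
    intro i
    rw [AlgHom.comp_apply, AlgHom.id_apply]
    unfold sg
    fin_cases i
    · simp
    · simp only [aeval_X, Fin.mk_one, Matrix.cons_val_one, Matrix.cons_val_zero, map_mul, aeval_C]
      rw [MvPolynomial.algebraMap_eq, ← mul_assoc, ← C_mul, mul_inv_cancel₀ hε, C_1, one_mul]
    · simp
    · simp
  intro a b hab
  have h1 := congrArg (sg ε⁻¹) hab
  rw [← AlgHom.comp_apply, ← AlgHom.comp_apply, h] at h1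
  exact h1

/-- its extension to the rational functions -/
noncomputable def sgK {ε : k} (hε : ε ≠ 0) : RF k 4 →+* RF k 4 :=
  IsFractionRing.lift (A := MvPolynomial (Fin 4) k) (K := RF k 4)
    (g := (algebraMap (MvPolynomial (Fin 4) k) (RF k 4)).comp (sg ε).toRingHom)
    ((IsFractionRing.injective (MvPolynomial (Fin 4) k) (RF k 4)).comp (sg_inj hε))

theorem sgK_map {ε : k} (hε : ε ≠ 0) (G : MvPolynomial (Fin 4) k) :
    sgK hε (algebraMap _ (RF k 4) G) = algebraMap _ (RF k 4) (sg ε G) := by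
  unfold sgK
  rw [IsFractionRing.lift_algebraMap]
  rfl

theorem sgK_C {ε : k} (hε : ε ≠ 0) (c : k) :
    sgK hε (algebraMap k (RF k 4) c) = algebraMap k (RF k 4) c := by
  rw [IsScalarTower.algebraMap_apply k (MvPolynomial (Fin 4) k) (RF k 4), sgK_map]
  rw [MvPolynomial.algebraMap_eq]
  congr 1
  exact (sg ε).commutes c

theorem sgK_x0 {ε : k} (hε : ε ≠ 0) : sgK hε (xx k 0) = xx k 0 := by
  unfold xx
  rw [sgK_map]
  simp [sg]

theorem sgK_x1 {ε : k} (hε : ε ≠ 0) :
    sgK hε (xx k 1) = algebraMap k (RF k 4) ε * xx k 1 := by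
  unfold xx
  rw [sgK_map, IsScalarTower.algebraMap_apply k (MvPolynomial (Fin 4) k) (RF k 4), ← map_mul]
  simp [sg, MvPolynomial.algebraMap_eq]

theorem sgK_x2 {ε : k} (hε : ε ≠ 0) : sgK hε (xx k 2) = xx k 2 := by
  unfold xx
  rw [sgK_map]
  simp [sg]

theorem sgK_x3 {ε : k} (hε : ε ≠ 0) : sgK hε (xx k 3) = xx k 3 := by
  unfold xx
  rw [sgK_map]
  simp [sg]

/-- setting `X0 = 0` -/
noncomputable def pi0 : MvPolynomial (Fin 4) k →ₐ[k] MvPolynomial (Fin 3) k :=
  aeval ![0, X 0, X 1, X 2]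

end aux

theorem pf_SEP : T_SEP := by
  intro k _ _ _ W H p q S α β k1 l1 L _ _ Θ v w m K1 c κ ζ hW hPr hC hE ε hεm hε1
  by_contra hcon
  push Not at hcon
  have hε : ε ≠ 0 := by
    rintro rfl
    rw [zero_pow hC.mp.ne'] at hεm
    exact zero_ne_one hεm
  obtain ⟨N0, n0, F, hF, hvF⟩ := hC.inv 0
  rw [hC.tf] at hvF
  obtain ⟨N, P, hP⟩ := hPr.gen F
  obtain ⟨M, G, hG1, hG2⟩ := hE.val F N P hP
  set e : ℕ := 1 + m * N0 + (M + m * N) with he
  have hx1m : sgK hε (xx k 1 ^ m) = xx k 1 ^ m := by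
    rw [map_pow, sgK_x1, mul_pow, ← map_pow, hεm, map_one, one_mul]
  have hES : sgK hε (ES k α β k1 l1 w m K1 c κ) = ES k α β k1 l1 w m K1 c κ := by
    unfold ES
    rw [map_mul, map_mul, map_pow, sgK_x0, pow_mul, map_pow, hx1m]
    congr 1
    rw [map_add, map_add, map_sum, map_mul, sgK_x0, sgK_x3, map_div₀, map_add, sgK_x2, sgK_C,
      map_mul, sgK_C, hx1m]
    congr 2
    refine Finset.sum_congr rfl fun K hK => ?_
    rw [Finset.mem_Icc] at hK
    rw [map_mul, map_mul, sgK_C, map_zpow₀, sgK_x0, map_zpow₀, sgK_x1, mul_zpow, ← map_zpow₀]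
    by_cases hcK : c K = 0
    · rw [hcK, map_zero, zero_mul, zero_mul, zero_mul]
    · have h1 := hcon K hK.1 hK.2 hcK
      have h2 : ε ^ (α * (K : ℤ) - (m : ℤ)) = 1 := by
        rw [zpow_sub₀ hε, zpow_natCast, hεm, div_one]
        have h3 : α * (K : ℤ) = ((α.toNat * K : ℕ) : ℤ) := by
          push_cast
          rw [Int.toNat_of_nonneg hPr.pa.le]
        rw [h3, zpow_natCast, h1]
      rw [h2, map_one, one_mul]
  have hA : sgK hε (aeval ![xx k 0, xx k 1 ^ m, xx k 2, ES k α β k1 l1 w m K1 c κ] P) =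
      aeval ![xx k 0, xx k 1 ^ m, xx k 2, ES k α β k1 l1 w m K1 c κ] P := by
    have h1 : ∀ Q : MvPolynomial (Fin 4) k,
        sgK hε (aeval ![xx k 0, xx k 1 ^ m, xx k 2, ES k α β k1 l1 w m K1 c κ] Q) =
        aeval ![xx k 0, xx k 1 ^ m, xx k 2, ES k α β k1 l1 w m K1 c κ] Q := by
      intro Q
      induction Q using MvPolynomial.induction_on with
      | C a => rw [aeval_C, sgK_C]
      | add a b ha hb => rw [map_add, map_add, ha, hb]
      | mul_X a i ha =>
        rw [map_mul, map_mul, ha, aeval_X]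
        congr 1
        fin_cases i
        · exact sgK_x0 hε
        · exact hx1m
        · exact sgK_x2 hε
        · exact hES
    exact h1 P
  have hx0 : (xx k 0 : RF k 4) ≠ 0 := by
    unfold xx
    rw [Ne, FaithfulSMul.algebraMap_eq_zero_iff]
    exact X_ne_zero 0
  have hsig : sg ε G = C (ε ^ M) * G := by
    have h1 := congrArg (sgK hε) hG1
    rw [map_mul, hA, map_pow, sgK_x1, map_mul, map_pow, sgK_x0, sgK_map, mul_pow,
      mul_left_comm, hG1, mul_left_comm] at h1
    have h2 := mul_left_cancel₀ (pow_ne_zero N hx0) h1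
    apply IsFractionRing.injective (MvPolynomial (Fin 4) k) (RF k 4)
    rw [← h2, map_mul, C_pow, map_pow, ← MvPolynomial.algebraMap_eq,
      ← IsScalarTower.algebraMap_apply k (MvPolynomial (Fin 4) k) (RF k 4)]
  have hG0 : pi0 G = X 0 ^ e := by
    have hind : Function.Injective (aeval (R := k) ![v 0, v 1, ζ]) := hE.ind
    apply hind
    rw [map_pow, aeval_X]
    have h1 : aeval ![v 0, v 1, ζ] (pi0 G) = aeval ![0, v 0, v 1, ζ] G := by
      have h2 : (aeval (R := k) ![v 0, v 1, ζ]).comp pi0 = aeval (R := k) ![0, v 0, v 1, ζ] := by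
        apply MvPolynomial.algHom_ext
        intro i
        rw [AlgHom.comp_apply]
        unfold pi0
        fin_cases i <;> simp
      rw [← h2]
      rfl
    rw [h1, ← hG2, ← hvF, he]
    simp only [Matrix.cons_val_zero]
    ring
  have hev : ∀ a : k, eval ![0, a, 0, 0] G = a ^ e := by
    intro a
    have h2 : (aeval (R := k) ![a, 0, 0]).comp pi0 = aeval (R := k) ![(0 : k), a, 0, 0] := by
      apply MvPolynomial.algHom_ext
      intro i
      rw [AlgHom.comp_apply]
      unfold pi0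
      fin_cases i <;> simp
    have h3 : aeval (R := k) ![(0 : k), a, 0, 0] G = a ^ e := by
      rw [← h2, AlgHom.comp_apply, hG0, map_pow, aeval_X]
      rfl
    rw [← h3]
    rfl
  have h5 : eval ![0, 1, 0, 0] (sg ε G) = eval ![0, ε, 0, 0] G := by
    have h2 : (aeval (R := k) ![(0 : k), 1, 0, 0]).comp (sg ε) =
        aeval (R := k) ![(0 : k), ε, 0, 0] := by
      apply MvPolynomial.algHom_ext
      intro i
      rw [AlgHom.comp_apply]
      unfold sg
      fin_cases i <;> simp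
    have h3 := congrArg (fun f => f G) h2
    exact h3
  rw [hsig, map_mul, eval_C, hev, hev, one_pow, mul_one, he] at h5
  have h6 : ε ^ (1 + m * N0 + (M + m * N)) = ε ^ M * ε := by
    have h7 : 1 + m * N0 + (M + m * N) = M + 1 + m * (N0 + N) := by ring
    rw [h7, pow_add, pow_mul, hεm, one_pow, mul_one, pow_succ]
  rw [h6] at h5
  have h8 : ε ^ M * 1 = ε ^ M * ε := by rw [mul_one]; exact h5
  exact hε1 (mul_left_cancel₀ (pow_ne_zero M hε) h8).symm

end Pool.Agent.H60.SYA
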